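import Pool.Agent.H482R3.EB.Stm

set_option autoImplicit false

/-! EB, task ADM3 (helper240): admissibility of `ll` syllables is computable. -/

namespace Pool.Agent.H240R.EB

open Pool.Agent.H482R3 Pool.Agent.H482R3.EB
open Pool.Agent.H482R3.EA (W inv ev PP xx evF cond1 cond2 cV cW LIdx Syl gOf iW iV letF valS
  Sys St Near InD Adm Act)

theorem ADM3_comp {α β : Type} [Primcodable α] [Primcodable β] {p : β → Prop} {f : α → β}
    (hp : ComputablePred p) (hf : Computable f) : ComputablePred fun x => p (f x) := by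
  obtain ⟨g, hg, rfl⟩ := ComputablePred.computable_iff.1 hp
  exact ComputablePred.computable_iff.2 ⟨fun x => g (f x), hg.comp hf, rfl⟩

theorem ADM3_const {α : Type} [Primcodable α] (P : Prop) : ComputablePred fun _ : α => P := by
  by_cases h : P
  · exact ComputablePred.computable_iff.2 ⟨fun _ => true, Computable.const _, by
      funext x; simp [h]⟩
  · exact ComputablePred.computable_iff.2 ⟨fun _ => false, Computable.const _, by
      funext x; simp [h]⟩

theorem ADM3_gOf {a b : ℕ} : Primrec (gOf : Option (Syl (Fin a) (Fin b)) → W (Fin b)) := by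
  have h2 : Primrec₂ (fun (_ : Option (Syl (Fin a) (Fin b))) (t : Syl (Fin a) (Fin b)) =>
      (Sum.casesOn t (fun x => x.1) (fun y => Sum.casesOn y (fun z => z.1) (fun u => u.1)) :
        W (Fin b))) := by
    refine Primrec.sumCasesOn Primrec.snd (Primrec.fst.comp Primrec.snd).to₂ ?_
    exact (Primrec.sumCasesOn Primrec.snd (Primrec.fst.comp Primrec.snd).to₂
      (Primrec.fst.comp Primrec.snd).to₂).to₂
  have h3 := Primrec.option_casesOn Primrec.id
    (Primrec.const ([] : W (Fin b))) h2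
  exact h3.of_eq (fun s => by rcases s with _ | (_ | _ | _) <;> rfl)

theorem ADM3_int (j : ℤ) (B : ℕ) (h : |j| ≤ (B : ℕ)) :
    ∃ m, m ≤ B ∧ ∃ n, n ≤ B ∧ ((m : ℤ) - (n : ℤ)) = j := by
  refine ⟨j.toNat, ?_, (-j).toNat, ?_, ?_⟩
  · have := abs_le.1 h; omega
  · have := abs_le.1 h; omega
  · omega

/-- the type of the arguments -/
abbrev ADM3_X (a b : ℕ) : Type :=
  Option (Syl (Fin a) (Fin b)) × (W (Fin b) × Fin a × Fin b × W ℕ)

/-- the bound -/
def ADM3_B {a b : ℕ} (p : ADM3_X a b) : ℕ := p.2.1.length + (gOf p.1).length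

theorem ADM3_Bc {a b : ℕ} : Computable (ADM3_B : ADM3_X a b → ℕ) := by
  have h1 : Primrec fun p : ADM3_X a b => p.2.1.length :=
    Primrec.list_length.comp (Primrec.fst.comp Primrec.snd)
  have h2 : Primrec fun p : ADM3_X a b => (gOf p.1).length :=
    Primrec.list_length.comp (ADM3_gOf.comp Primrec.fst)
  exact (Primrec.nat_add.comp h1 h2).to_comp

theorem ADM3_search (hS : EA.S_BS) {a b : ℕ} {q : (ADM3_X a b × ℕ) × ℕ → Prop}
    (hq : ComputablePred q) :
    ComputablePred fun p : ADM3_X a b =>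
      ∃ m, m ≤ ADM3_B p ∧ ∃ n, n ≤ ADM3_B p ∧ q ((p, m), n) := by
  have h1 := hS (ADM3_X a b × ℕ) inferInstance q (fun x => ADM3_B x.1) hq
    (ADM3_Bc.comp Computable.fst)
  exact hS (ADM3_X a b) inferInstance
    (fun x => ∃ n, n ≤ ADM3_B x.1 ∧ q (x, n)) ADM3_B h1 ADM3_Bc

theorem t_ADM3 (hB : S_BASB) (hP : EA.S_CP) (hN : S_NEARB) (hI : S_INDB) (hS : EA.S_BS)
    (hD : S_NBD) (h1 : EA.S_C1) (h2 : EA.S_C2) : S_ADM3 := by
  intro a b c hc htame hT
  have hNear := hN a b c hT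
  have hInd := (hI a b c hT).2
  -- NearW with j = m - n
  have nearC : ComputablePred fun x : (ADM3_X a b × ℕ) × ℕ =>
      NearW c (x.1.1.2.1 ++ wp x.1.1.2.2.2.1 ((x.1.2 : ℤ) - (x.2 : ℤ))) x.1.1.2.2.1 x.1.1.1 := by
    have hp : Computable fun x : (ADM3_X a b × ℕ) × ℕ => x.1.1 :=
      Computable.fst.comp Computable.fst
    have hg : Computable fun x : (ADM3_X a b × ℕ) × ℕ => x.1.1.2.1 :=
      Computable.fst.comp (Computable.snd.comp hp)
    have hv : Computable fun x : (ADM3_X a b × ℕ) × ℕ => x.1.1.2.2.1 :=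
      Computable.fst.comp (Computable.snd.comp (Computable.snd.comp hp))
    have hw : Computable fun x : (ADM3_X a b × ℕ) × ℕ => x.1.1.2.2.2.1 :=
      Computable.fst.comp (Computable.snd.comp (Computable.snd.comp (Computable.snd.comp hp)))
    have hs : Computable fun x : (ADM3_X a b × ℕ) × ℕ => x.1.1.1 := Computable.fst.comp hp
    have hm : Computable fun x : (ADM3_X a b × ℕ) × ℕ => x.1.2 :=
      Computable.snd.comp Computable.fst
    have hwp : Computable fun x : (ADM3_X a b × ℕ) × ℕ =>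
        wp x.1.1.2.2.2.1 ((x.1.2 : ℤ) - (x.2 : ℤ)) :=
      Computable.comp (f := fun p : Fin b × (ℕ × ℕ) => wp p.1 ((p.2.1 : ℤ) - (p.2.2 : ℤ)))
        (g := fun x : (ADM3_X a b × ℕ) × ℕ => (x.1.1.2.2.2.1, (x.1.2, x.2)))
        (hB b).2.1 (hw.pair (hm.pair Computable.snd))
    have happ : Computable fun x : (ADM3_X a b × ℕ) × ℕ =>
        x.1.1.2.1 ++ wp x.1.1.2.2.2.1 ((x.1.2 : ℤ) - (x.2 : ℤ)) :=
      Primrec.list_append.to_comp.comp hg hwp
    exact ADM3_comp hNear ((happ.pair hv).pair hs)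
  have indC : ComputablePred fun p : ADM3_X a b => InDL c p.2.1 p.2.2.1 p.2.2.2.1 p.1 := by
    have hg : Computable fun p : ADM3_X a b => p.2.1 := Computable.fst.comp Computable.snd
    have hv : Computable fun p : ADM3_X a b => p.2.2.1 :=
      Computable.fst.comp (Computable.snd.comp Computable.snd)
    have hw : Computable fun p : ADM3_X a b => p.2.2.2.1 :=
      Computable.fst.comp (Computable.snd.comp (Computable.snd.comp Computable.snd))
    exact ADM3_comp hInd ((hg.pair (hv.pair hw)).pair Computable.fst)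
  have key : ∀ (v0 : Fin a) (w0 : Fin b), ComputablePred fun p : ADM3_X a b =>
      (p.2.2.1 = v0 ∧ p.2.2.2.1 = w0) ∧ (c (.inl v0) (.inr w0) ≠ 0 ∧
        (¬ InDL c p.2.1 p.2.2.1 p.2.2.2.1 p.1 ∧
        ((¬ (∃ m, m ≤ ADM3_B p ∧ ∃ n, n ≤ ADM3_B p ∧
            NearW c (p.2.1 ++ wp p.2.2.2.1 ((m : ℤ) - (n : ℤ))) p.2.2.1 p.1) ∧
          cond1 (c (.inl v0) (.inr w0)) p.2.2.2.2) ∨
         (∃ m, m ≤ ADM3_B p ∧ ∃ n, n ≤ ADM3_B p ∧
            (NearW c (p.2.1 ++ wp p.2.2.2.1 ((m : ℤ) - (n : ℤ))) p.2.2.1 p.1 ∧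
              cond2 (c (.inl v0) (.inr w0)) ((m : ℤ) - (n : ℤ)) p.2.2.2.2))))) := by
    intro v0 w0
    have hv : Computable fun p : ADM3_X a b => p.2.2.1 :=
      Computable.fst.comp (Computable.snd.comp Computable.snd)
    have hw : Computable fun p : ADM3_X a b => p.2.2.2.1 :=
      Computable.fst.comp (Computable.snd.comp (Computable.snd.comp Computable.snd))
    have hy : Computable fun p : ADM3_X a b => p.2.2.2.2 :=
      Computable.snd.comp (Computable.snd.comp (Computable.snd.comp Computable.snd))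
    obtain ⟨cand, cor, -, -⟩ := hP (ADM3_X a b) inferInstance 0
    obtain ⟨cand', -, -, -⟩ := hP ((ADM3_X a b × ℕ) × ℕ) inferInstance 0
    have e1 : ComputablePred fun p : ADM3_X a b => p.2.2.1 = v0 := by
      have h0 : ComputablePred fun v : Fin a => v = v0 :=
        (Primrec.eq.comp Primrec.id (Primrec.const v0)).computablePred
      exact ADM3_comp h0 hv
    have e2 : ComputablePred fun p : ADM3_X a b => p.2.2.2.1 = w0 := by
      have h0 : ComputablePred fun w : Fin b => w = w0 :=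
        (Primrec.eq.comp Primrec.id (Primrec.const w0)).computablePred
      exact ADM3_comp h0 hw
    by_cases hk : c (.inl v0) (.inr w0) = 0
    · refine (ADM3_const False).of_eq fun p => ?_
      simp [hk]
    · have hk2 : 2 ≤ c (.inl v0) (.inr w0) := by
        have := hc v0 w0
        omega
      have f1 : ComputablePred fun p : ADM3_X a b =>
          cond1 (c (.inl v0) (.inr w0)) p.2.2.2.2 := ADM3_comp (h1 _ hk2) hy
      have f2 : ComputablePred fun x : (ADM3_X a b × ℕ) × ℕ =>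
          cond2 (c (.inl v0) (.inr w0)) ((x.1.2 : ℤ) - (x.2 : ℤ)) x.1.1.2.2.2.2 := by
        have hf : Computable fun x : (ADM3_X a b × ℕ) × ℕ => ((x.1.2, x.2), x.1.1.2.2.2.2) :=
          ((Computable.snd.comp Computable.fst).pair Computable.snd).pair
            (hy.comp (Computable.fst.comp Computable.fst))
        exact ADM3_comp (h2 _ hk2) hf
      have s1 := ADM3_search hS nearC
      have s2 := ADM3_search hS (cand' _ _ nearC f2)
      exact cand _ _ (cand _ _ e1 e2) (cand _ _ (ADM3_const _) (cand _ _ indC.not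
        (cor _ _ (cand _ _ s1.not f1) s2)))
  have tot : ComputablePred fun p : ADM3_X a b => ∃ v0 : Fin a, ∃ w0 : Fin b,
      (p.2.2.1 = v0 ∧ p.2.2.2.1 = w0) ∧ (c (.inl v0) (.inr w0) ≠ 0 ∧
        (¬ InDL c p.2.1 p.2.2.1 p.2.2.2.1 p.1 ∧
        ((¬ (∃ m, m ≤ ADM3_B p ∧ ∃ n, n ≤ ADM3_B p ∧
            NearW c (p.2.1 ++ wp p.2.2.2.1 ((m : ℤ) - (n : ℤ))) p.2.2.1 p.1) ∧
          cond1 (c (.inl v0) (.inr w0)) p.2.2.2.2) ∨
         (∃ m, m ≤ ADM3_B p ∧ ∃ n, n ≤ ADM3_B p ∧
            (NearW c (p.2.1 ++ wp p.2.2.2.1 ((m : ℤ) - (n : ℤ))) p.2.2.1 p.1 ∧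
              cond2 (c (.inl v0) (.inr w0)) ((m : ℤ) - (n : ℤ)) p.2.2.2.2))))) := by
    obtain ⟨-, -, -, cex⟩ := hP (ADM3_X a b) inferInstance a
    obtain ⟨-, -, -, cex'⟩ := hP (ADM3_X a b) inferInstance b
    exact cex _ fun v0 => cex' _ fun w0 => key v0 w0
  refine tot.of_eq ?_
  rintro ⟨s, g, v, w, y⟩
  constructor
  · rintro ⟨v0, w0, ⟨rfl, rfl⟩, hk, hni, h⟩
    refine ⟨hk, hni, ?_⟩
    rcases h with ⟨h3, h4⟩ | ⟨m, -, n, -, h3, h4⟩
    · left
      refine ⟨fun j hj => h3 ?_, h4⟩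
      have hb := hD _ _ c htame g v w j s hni hk hj
      obtain ⟨m, hm, n, hn, hmn⟩ := ADM3_int j (ADM3_B (s, g, v, w, y)) hb
      exact ⟨m, hm, n, hn, by rw [hmn]; exact hj⟩
    · right
      exact ⟨_, h3, h4⟩
  · rintro ⟨hk, hni, h⟩
    refine ⟨v, w, ⟨rfl, rfl⟩, hk, hni, ?_⟩
    rcases h with ⟨h3, h4⟩ | ⟨j, h3, h4⟩
    · left
      exact ⟨by rintro ⟨m, -, n, -, h5⟩; exact h3 _ h5, h4⟩
    · right
      have hb := hD _ _ c htame g v w j s hni hk h3
      obtain ⟨m, hm, n, hn, hmn⟩ := ADM3_int j (ADM3_B (s, g, v, w, y)) hb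
      exact ⟨m, hm, n, hn, by rw [hmn]; exact h3, by rw [hmn]; exact h4⟩

end Pool.Agent.H240R.EB
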